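import Pool.Agent.MP_ed9623_an.H77.SpecZ
import Pool.Agent.MP_ed9623_an.H64.Ana4

/-! Interior analyticity at the origin. -/

open MeasureTheory Filter Topology Set
open scoped ContDiff

namespace Pool.Agent.MP_ed9623_an.H77

open H64

namespace AnaC

variable {N : Set P} {θ : P → ℝ}

/-- The pairing of a smooth function with a test function. -/
noncomputable def pr (hθ : Test N θ) : SA PP →ₗ[ℝ] ℝ where
  toFun f := ∫ x, f.1 x * θ x
  map_add' f g := (integral_congr_ae (Eventually.of_forall fun _ => add_mul _ _ _)).trans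
    (integral_add ((f.ct.mul hθ.ct).integrable_of_hasCompactSupport hθ.2.1.mul_left)
      ((g.ct.mul hθ.ct).integrable_of_hasCompactSupport hθ.2.1.mul_left))
  map_smul' c f := by
    rw [RingHom.id_apply, smul_eq_mul, ← integral_const_mul]
    exact integral_congr_ae (Eventually.of_forall fun x => mul_assoc _ _ _)

theorem pr_pd (hθ : Test N θ) (e : P) (f : SA PP) : pr (hθ.pd e) f = -pr hθ (D e f) :=
  WD.of_cd (f.cd 1) N e θ hθ

theorem pr_ae (hθ : Test N θ) {f : SA PP} {g : P → ℝ} (h : ∀ᵐ p, p ∈ N → f.1 p = g p) :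
    ∫ x, g x * θ x = pr hθ f := (int_test_congr (fun _ => hθ.off) h).symm

theorem pr_dd (hθ : Test N θ) (i : Fin 2) {f : SA PP} {g : P → ℝ}
    (h : ∀ᵐ p, p ∈ N → f.1 p = g p) :
    ∫ x, g x * dd (fun _ => 0) i θ x = -pr hθ (D (ee i) f) := by
  rw [dd_zero, pr_ae (hθ.pd _) h, pr_pd]

theorem pr_perp (hθ : Test N θ) (f : Fin 2 → SA PP) :
    ∑ j, pr (hθ.perp Gam.zero j) (f j) = -pr hθ (d1 (f 1) - d2 (f 0)) := by
  have e : ∀ i (g : SA PP), ∫ x, g.1 x * dd (fun _ => 0) i θ x = -pr hθ (D (ee i) g) :=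
    fun i g => pr_dd hθ i (Eventually.of_forall fun _ _ => rfl)
  have e0 : pr (hθ.perp Gam.zero 0) (f 0) = pr hθ (d2 (f 0)) := by
    refine Eq.trans ?_ (neg_eq_iff_eq_neg.2 (e 1 (f 0)))
    rw [← integral_neg]
    exact integral_congr_ae (Eventually.of_forall fun x => mul_neg _ _)
  have e1 : pr (hθ.perp Gam.zero 1) (f 1) = -pr hθ (d1 (f 1)) := e 0 (f 1)
  rw [Fin.sum_univ_two, e0, e1, map_sub]
  ring

/-- The classical equations at one time. -/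
theorem slice (hC : Cl0S) (hN : IsOpen N) {v w : E6} {g : Fin 2 → P → ℝ} {a z : Fin 2 → SA PP}
    {G : SA PP} (hv : v ∈ VZ univ) (hg : ∀ j, M2 (g j))
    (ha : ∀ j, ∀ᵐ p, p ∈ N → (a j).1 p = vl v j p) (hz : ∀ j, ∀ᵐ p, p ∈ N → (z j).1 p = vl w j p)
    (he : ∀ θ, Test N θ → E2 (fun _ => 0) 1 (vl v) (gj v) (fun j p => g j p - vl w j p) θ)
    (hG : ∀ θ, Test N θ → -ip g (perp (fun _ => 0) θ) = ∫ x, G.1 x * θ x) : ∀ x ∈ N,
    (d1 (a 0) + d2 (a 1)).1 x = 0 ∧ (d1 (z 1) - d2 (z 0) - (d1 (d1 (d1 (a 1) - d2 (a 0)))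
      + d2 (d2 (d1 (a 1) - d2 (a 0)))) + (d1 (a 0 * (d1 (a 1) - d2 (a 0)))
      + d2 (a 1 * (d1 (a 1) - d2 (a 0)))) - G).1 x = 0 := by
  obtain ⟨c1, c2, -⟩ := hC N hN
  obtain ⟨hv1, -⟩ := mem_VZ.1 hv
  have hd : ∀ j i, ∀ᵐ p, p ∈ N → (D (ee i) (a j)).1 p = gj v j i p := fun j i =>
    c2 _ _ _ _ ((a j).cd 1) ((hv1.h1 j).md i) (ha j)
      (((H1O.zero_iff.1 (hv1.h1 j)).2 i).2.mono (subset_univ _))
  have hdiv : ∀ x ∈ N, (d1 (a 0) + d2 (a 1)).1 x = 0 := by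
    refine c1 _ (SA.ct _) fun θ hθ => ?_
    rw [int_test_congr (g := fun _ => 0) (fun _ => hθ.off)]
    · simp
    · filter_upwards [hd 0 0, hd 1 1, hv1.dv] with p h0 h1 h2 hp
      exact (congrArg₂ (· + ·) (h0 hp) (h1 hp)).trans h2
  refine fun x hx => ⟨hdiv x hx, c1 _ (SA.ct _) (fun θ hθ => ?_) x hx⟩
  have hp := hθ.perp Gam.zero
  have e1 : di (fun _ => 0) (gj v) (perp (fun _ => 0) θ) =
      pr hθ (d1 (d1 (d1 (a 1)) + d2 (d2 (a 1))) - d2 (d1 (d1 (a 0)) + d2 (d2 (a 0)))) := by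
    rw [← neg_inj, ← pr_perp hθ fun j => d1 (d1 (a j)) + d2 (d2 (a j)), di,
      ← Finset.sum_neg_distrib]
    refine Finset.sum_congr rfl fun j _ => ?_
    rw [Fin.sum_univ_two, pr_dd (hp j) 0 (hd j 0), pr_dd (hp j) 1 (hd j 1), map_add, neg_add,
      neg_neg, neg_neg]
    rfl
  have hm : ∀ i j, ∀ᵐ p, p ∈ N → (a i * a j).1 p = vl v i p * vl v j p := fun i j => by
    filter_upwards [ha i, ha j] with p h0 h1 hp
    exact congrArg₂ (· * ·) (h0 hp) (h1 hp)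
  have e2 : tl (fun _ => 0) (vl v) (vl v) (perp (fun _ => 0) θ) =
      pr hθ (d1 (d1 (a 0 * a 1) + d2 (a 1 * a 1)) - d2 (d1 (a 0 * a 0) + d2 (a 1 * a 0))) := by
    rw [← neg_inj, ← pr_perp hθ fun j => d1 (a 0 * a j) + d2 (a 1 * a j), tl,
      ← Finset.sum_neg_distrib]
    refine Finset.sum_congr rfl fun j _ => ?_
    rw [Fin.sum_univ_two, pr_dd (hp j) 0 (hm 0 j), pr_dd (hp j) 1 (hm 1 j), map_add, neg_add,
      neg_neg, neg_neg]
    rfl
  have e3 : ip (fun j p => g j p - vl w j p) (perp (fun _ => 0) θ) =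
      ip g (perp (fun _ => 0) θ) + pr hθ (d1 (z 1) - d2 (z 0)) := by
    rw [← sub_neg_eq_add, ← pr_perp hθ z, ip, ip, ← Finset.sum_sub_distrib]
    refine Finset.sum_congr rfl fun j _ => ?_
    simp only [sub_mul]
    rw [integral_sub ((hg j).int_mul (hp j).m2) ((m2_vl w j).int_mul (hp j).m2),
      pr_ae (hp j) (hz j)]
  have e4 : pr hθ (d1 ((d1 (a 0) + d2 (a 1)) * a 1) - d2 ((d1 (a 0) + d2 (a 1)) * a 0)) = 0 := by
    rw [← neg_eq_zero, ← pr_perp hθ fun j => (d1 (a 0) + d2 (a 1)) * a j]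
    refine Finset.sum_eq_zero fun j _ => ?_
    rw [← pr_ae (hp j) (g := fun _ => 0) (Eventually.of_forall fun p h =>
      mul_eq_zero_of_left (hdiv p h) _)]
    simp
  have e5 : -ip g (perp (fun _ => 0) θ) = pr hθ G := hG θ hθ
  have e6 := he θ hθ
  rw [E2, e1, e2, e3] at e6
  have e7 : d1 (z 1) - d2 (z 0) - (d1 (d1 (d1 (a 1) - d2 (a 0)))
      + d2 (d2 (d1 (a 1) - d2 (a 0)))) + (d1 (a 0 * (d1 (a 1) - d2 (a 0)))
      + d2 (a 1 * (d1 (a 1) - d2 (a 0)))) - G = d1 (z 1) - d2 (z 0)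
      - (d1 (d1 (d1 (a 1)) + d2 (d2 (a 1))) - d2 (d1 (d1 (a 0)) + d2 (d2 (a 0))))
      + (d1 (d1 (a 0 * a 1) + d2 (a 1 * a 1)) - d2 (d1 (a 0 * a 0) + d2 (a 1 * a 0)))
      - (d1 ((d1 (a 0) + d2 (a 1)) * a 1) - d2 ((d1 (a 0) + d2 (a 1)) * a 0)) - G := by
    simp only [map_sub, map_add, D_mul, d21]
    ring
  change pr hθ _ = 0
  rw [e7, map_sub, map_sub, map_add, map_sub _ (d1 (z 1) - d2 (z 0)), e4]
  linarith

end AnaC

open AnaC in
theorem rowAnaC : OfAnaC := by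
  intro hR hC hB r g G U hL hr hG t
  have key : ∀ j, ∃ F : SA ST, ∀ᶠ s in 𝓝 t, ∀ᵐ p, p ∈ Q (r / 3) → F.1 (s, p) = vl (U s) j p := by
    intro j
    obtain ⟨F, h1, h2⟩ := hR.2 (r / 2) (r / 3) t (cp U (j, none)) (by linarith) (sm_cp hL.sm _)
      fun k => hB r (r / 2) g G U hL (by linarith) (by linarith) k j
    exact ⟨⟨F, h1⟩, h2⟩
  choose u hu using key
  have hQ : Q (r / 3) ⊆ Q r := Q_mono (by linarith)
  have h0 : Q (r / 3) ∈ 𝓝 (0 : P) := by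
    rw [Q_eq_ball]
    exact Metric.ball_mem_nhds _ (by linarith)
  have main := ana_local (u 0) (u 1) ⟨G, hL.tG.1⟩ (σ := 1) (by norm_num) (z := (t, 0)) hG (by
    filter_upwards [((eventually_all.2 hu).eventually_nhds.prod_nhds h0 :)] with ⟨s, x⟩ ⟨hs, hx⟩
    have hz : ∀ j, ∀ᵐ p, p ∈ Q (r / 3) → (sl s (dt (u j))).1 p = vl (deriv U s) j p := by
      intro j
      have := (hC _ (isOpen_Q (r / 3))).2.2 (u j).1 (cp U (j, none)) s ((u j).cd 1)
        (sm_cp hL.sm _) (hs.mono fun _ h => h j)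
      rwa [deriv_cp hL.sm] at this
    have := slice hC (isOpen_Q (r / 3)) (a := fun j => sl s (u j)) (G := ⟨G, hL.tG.1⟩) (hL.vf s)
      hL.mg hs.self_of_nhds hz (fun θ hθ => hL.eq s θ (hθ.mono hQ))
      (fun θ hθ => hL.cu θ (hθ.mono hQ)) x hx
    have c1 : ∀ f : SA ST, dt (D e1 f) = D e1 (dt f) := D_comm _ _
    have c2 : ∀ f : SA ST, dt (D e2 f) = D e2 (dt f) := D_comm _ _
    rw [one_smul, map_sub dt, c1, c2]
    simp only [← sl_e1, ← sl_e2, ← map_sub, ← map_add, ← map_mul] at this ⊢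
    exact this)
  intro j
  refine ⟨(sl t (u j)).1, r / 3, by linarith, ?_, ?_⟩
  · fin_cases j
    exacts [main.1, main.2]
  · rw [← Q_eq_ball]
    exact (hu j).self_of_nhds.mono fun p h hp => (h hp).symm

end Pool.Agent.MP_ed9623_an.H77
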