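import Pool.Agent.MP_ed9623_an.H77.SpecX

/-! Dissipation in an annulus, when the energy density vanishes on the inner circle. -/

open MeasureTheory Filter Topology Set
open scoped ContDiff InnerProductSpace

namespace Pool.Agent.MP_ed9623_an.H77

open H64

namespace Diss2

/-- A smooth version of the positive part. -/
noncomputable def S (x : ℝ) : ℝ := x * Real.smoothTransition x

theorem S_sm : ContDiff ℝ ∞ S := contDiff_id.mul Real.smoothTransition.contDiff

theorem S_sm' : ContDiff ℝ ∞ (deriv S) := (contDiff_infty_iff_deriv.1 S_sm).2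

theorem S_low {x : ℝ} (h : x ≤ 0) : S x = 0 := by
  rw [S, Real.smoothTransition.zero_of_nonpos h, mul_zero]

theorem S_high {x : ℝ} (h : 1 ≤ x) : S x = x := by
  rw [S, Real.smoothTransition.one_of_one_le h, mul_one]

theorem S_nonneg (x : ℝ) : 0 ≤ S x := by
  rcases le_total x 0 with h | h
  · exact (S_low h).ge
  · exact mul_nonneg h (Real.smoothTransition.nonneg x)

theorem dS_low {x : ℝ} (h : x < 0) : deriv S x = 0 ∧ deriv (deriv S) x = 0 := by
  have e : S =ᶠ[𝓝 x] fun _ => 0 := (gt_mem_nhds h).mono fun y hy => S_low hy.le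
  exact ⟨by simpa using e.deriv_eq, by simpa using e.deriv.deriv_eq⟩

theorem dS_high {x : ℝ} (h : 1 < x) : deriv S x = 1 ∧ deriv (deriv S) x = 0 := by
  have e : S =ᶠ[𝓝 x] fun y => y := (lt_mem_nhds h).mono fun y hy => S_high hy.le
  exact ⟨by simpa using e.deriv_eq, by simpa using e.deriv.deriv_eq⟩

theorem dS_bd : ∃ C : ℝ, 0 ≤ C ∧ ∀ x ∈ Icc (0 : ℝ) 1, |deriv S x| ≤ C ∧ |deriv (deriv S) x| ≤ C := by
  obtain ⟨C, hC⟩ := (isCompact_Icc (a := (0 : ℝ)) (b := 1)).exists_bound_of_continuousOn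
    S_sm'.continuous.continuousOn
  obtain ⟨C', hC'⟩ := (isCompact_Icc (a := (0 : ℝ)) (b := 1)).exists_bound_of_continuousOn
    (contDiff_infty_iff_deriv.1 S_sm').2.continuous.continuousOn
  exact ⟨max 0 (max C C'), le_max_left _ _, fun x hx =>
    ⟨(hC x hx).trans (le_max_of_le_right (le_max_left _ _)),
      (hC' x hx).trans (le_max_of_le_right (le_max_right _ _))⟩⟩

/-- The weight. -/
noncomputable def bt (a l ε t : ℝ) : ℝ := 1 - Real.exp (-(l * ε * S ((t - a) / ε - 1)))

theorem bt_sm (a l ε : ℝ) : ContDiff ℝ ∞ (bt a l ε) :=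
  contDiff_const.sub (contDiff_const.mul (S_sm.comp (by fun_prop))).neg.exp

theorem bt_low {a l ε t : ℝ} (hε : 0 < ε) (h : t ≤ a + ε) : bt a l ε t = 0 := by
  rw [bt, S_low (by rw [sub_nonpos, div_le_one hε]; linarith)]
  simp

theorem bt_bd {a l ε : ℝ} (hl : 0 ≤ l) (hε : 0 < ε) (t : ℝ) : 0 ≤ bt a l ε t ∧ bt a l ε t ≤ 1 :=
  ⟨sub_nonneg.2 (Real.exp_le_one_iff.2 (neg_nonpos.2
    (mul_nonneg (mul_nonneg hl hε.le) (S_nonneg _)))), sub_le_self _ (Real.exp_pos _).le⟩

theorem bt_der (a l : ℝ) {ε : ℝ} (hε : 0 < ε) (t : ℝ) :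
    deriv (bt a l ε) t = l * deriv S ((t - a) / ε - 1) * Real.exp (-(l * ε * S ((t - a) / ε - 1))) ∧
    deriv (deriv (bt a l ε)) t = (l * deriv (deriv S) ((t - a) / ε - 1) / ε -
      l ^ 2 * deriv S ((t - a) / ε - 1) ^ 2) * Real.exp (-(l * ε * S ((t - a) / ε - 1))) := by
  have x : ∀ t, HasDerivAt (fun t => (t - a) / ε - 1) (1 / ε) t := fun t =>
    (((hasDerivAt_id' t).sub_const a).div_const ε).sub_const 1
  have e := fun t => (((S_sm.differentiable (by simp) _).hasDerivAt.comp t (x t)).const_mul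
    (l * ε)).neg.exp
  have d : deriv (bt a l ε) = fun t =>
      l * deriv S ((t - a) / ε - 1) * Real.exp (-(l * ε * S ((t - a) / ε - 1))) := funext fun t => by
    refine ((e t).const_sub 1).deriv.trans ?_
    simp only [Function.comp_def, Pi.neg_apply]
    field_simp
  refine ⟨congrFun d t, ?_⟩
  rw [d]
  refine ((((S_sm'.differentiable (by simp) _).hasDerivAt.comp t (x t)).const_mul l).mul
    (e t)).deriv.trans ?_
  simp only [Function.comp_def, Pi.neg_apply]
  field_simp
  ring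

theorem err_bd {a l T : ℝ} (ha : 0 < a) (hl : 1 ≤ l * a) : ∃ K : ℝ, 0 ≤ K ∧ ∀ ε t : ℝ, 0 < ε →
    ε ≤ 1 → 0 ≤ t → t ≤ T →
    2 * T * (deriv (bt a l ε) t + t * deriv (deriv (bt a l ε)) t) - 2 * (t * deriv (bt a l ε) t) ≤
      if a < t ∧ t < a + 3 * ε then K / ε else 0 := by
  obtain ⟨C, C0, hC⟩ := dS_bd
  have l0 : 0 < l := pos_of_mul_pos_left (one_pos.trans_le hl) ha.le
  refine ⟨l * C * (2 * |T| * (2 + |T|)), by positivity, fun ε t hε ε1 t0 tT => ?_⟩
  have T0 : 0 ≤ T := t0.trans tT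
  rw [(bt_der a l hε t).1, (bt_der a l hε t).2, abs_of_nonneg T0]
  have e0 := Real.exp_pos (-(l * ε * S ((t - a) / ε - 1)))
  have e1 : Real.exp (-(l * ε * S ((t - a) / ε - 1))) ≤ 1 :=
    sub_nonneg.1 (bt_bd (a := a) l0.le hε t).1
  generalize Real.exp (-(l * ε * S ((t - a) / ε - 1))) = e at e0 e1
  have r0 : 0 ≤ if a < t ∧ t < a + 3 * ε then l * C * (2 * T * (2 + T)) / ε else 0 := by
    split_ifs <;> positivity
  by_cases h0 : (t - a) / ε - 1 < 0
  · simpa [(dS_low h0).1, (dS_low h0).2] using r0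
  by_cases h1 : 1 < (t - a) / ε - 1
  · refine le_trans ?_ r0
    rw [(dS_high h1).1, (dS_high h1).2]
    have h2 : a < t := by
      by_contra h
      have := div_nonpos_of_nonpos_of_nonneg (sub_nonpos.2 (not_lt.1 h)) hε.le
      linarith
    have h3 : 0 ≤ T * (l * e) * (l * t - 1) := mul_nonneg (by positivity) (by nlinarith)
    have h4 : 0 ≤ t * (l * e) := by positivity
    simp only [mul_zero, zero_div]
    nlinarith
  obtain ⟨c1, c2⟩ := hC _ ⟨not_lt.1 h0, not_lt.1 h1⟩
  rw [not_lt, sub_nonneg, one_le_div hε] at h0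
  rw [not_lt, sub_le_iff_le_add, div_le_iff₀ hε] at h1
  rw [if_pos ⟨by linarith, by linarith⟩, le_div_iff₀ hε]
  generalize deriv S ((t - a) / ε - 1) = s at c1
  generalize deriv (deriv S) ((t - a) / ε - 1) = s' at c2
  have b1 : |s * e * ε| ≤ C := by
    rw [abs_mul, abs_mul, abs_of_pos e0, abs_of_pos hε]
    exact (mul_le_of_le_one_right (by positivity) ε1).trans
      ((mul_le_of_le_one_right (abs_nonneg _) e1).trans c1)
  have b2 : s' * e ≤ C := (mul_le_mul_of_nonneg_right (le_abs_self _) e0.le).trans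
    ((mul_le_of_le_one_right (abs_nonneg _) e1).trans c2)
  have b3 := abs_le.1 b1
  have b4 : t * (s' * e) ≤ T * C := (mul_le_mul_of_nonneg_left b2 t0).trans
    (mul_le_mul_of_nonneg_right tT C0)
  have b5 : -(t * (s * e * ε)) ≤ T * C := by nlinarith
  have b6 : 0 ≤ T * t * (l ^ 2 * s ^ 2 * e * ε) := by positivity
  have b7 := mul_le_mul_of_nonneg_left b3.2 (show 0 ≤ T * l by positivity)
  have b8 := mul_le_mul_of_nonneg_left b4 (show 0 ≤ T * l by positivity)
  have b9 := mul_le_mul_of_nonneg_left b5 l0.le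
  have q : (2 * T * (l * s * e + t * ((l * s' / ε - l ^ 2 * s ^ 2) * e)) - 2 * (t * (l * s * e))) * ε
      = 2 * (T * l * (s * e * ε)) + 2 * (T * l * (t * (s' * e)))
        - 2 * (T * t * (l ^ 2 * s ^ 2 * e * ε)) + 2 * (l * -(t * (s * e * ε))) := by
    field_simp
    ring
  rw [q]
  nlinarith

theorem vol_disc (c : P) {t : ℝ} (ht : 0 < t) :
    volume.real {x | qc c x < t} = t * volume.real {x | qc c x < 1} := by
  have s0 := Real.sqrt_pos.2 ht
  have k : ∀ (ρ : ℝ) (y : P), qc c (AffineMap.homothety c ρ y) = ρ ^ 2 * qc c y := fun ρ y => by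
    simp [qc, AffineMap.homothety_apply]
    ring
  have : {x | qc c x < t} = AffineMap.homothety c √t '' {x | qc c x < 1} := by
    ext x
    constructor
    · intro h
      refine ⟨AffineMap.homothety c (√t)⁻¹ x, ?_, ?_⟩
      · change qc c _ < 1
        rw [k, inv_pow, Real.sq_sqrt ht.le, inv_mul_lt_one₀ ht]
        exact h
      · rw [← AffineMap.homothety_mul_apply, mul_inv_cancel₀ s0.ne', AffineMap.homothety_one]
        rfl
    · rintro ⟨y, hy, rfl⟩
      change qc c _ < t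
      rw [k, Real.sq_sqrt ht.le]
      exact mul_lt_of_lt_one_right ht hy
  rw [this, Measure.real, Measure.addHaar_image_homothety, ENNReal.toReal_mul,
    ENNReal.toReal_ofReal (abs_nonneg _)]
  simp [Real.sq_sqrt ht.le, abs_of_pos ht, Measure.real]

theorem fin_disc (c : P) (t : ℝ) : volume {x | qc c x < t} ≠ ⊤ :=
  ((measure_mono fun x (hx : qc c x < t) => show qc c x ≤ √t ^ 2 from
    hx.le.trans ((le_max_left _ _).trans Real.sq_sqrt'.ge)).trans_lt (isCompact_disc c √t).measure_lt_top).ne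

theorem vol_layer (c : P) {a b : ℝ} (ha : 0 < a) (hb : 0 < b) :
    volume.real {x | a < qc c x ∧ qc c x < a + b} ≤ b * volume.real {x | qc c x < 1} := by
  have m : MeasurableSet {x | a < qc c x ∧ qc c x < a + b} :=
    ((isOpen_lt continuous_const (sm_qc c).continuous).inter
      (isOpen_lt (sm_qc c).continuous continuous_const)).measurableSet
  have h1 := measureReal_union (μ := volume) (s₁ := {x | qc c x < a})
    (Set.disjoint_left.2 fun x h h' => lt_asymm h h'.1) m (fin_disc c a)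
    (ne_top_of_le_ne_top (fin_disc c (a + b)) (measure_mono fun x h => h.2))
  have h2 := measureReal_mono (μ := volume)
    (show {x | qc c x < a} ∪ {x | a < qc c x ∧ qc c x < a + b} ⊆ {x | qc c x < a + b} from
      union_subset (fun x (h : qc c x < a) => h.trans (lt_add_of_pos_right a hb)) fun x h => h.2)
    (fin_disc c _)
  rw [h1, vol_disc c ha, vol_disc c (add_pos ha hb)] at h2
  linarith

theorem tint {φ f : P → ℝ} (hφ : Test univ φ) (hf : Integrable f) :
    Integrable fun x => φ x * f x := by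
  obtain ⟨C, -, hC⟩ := hφ.bd
  exact hf.bdd_mul hφ.ct.aestronglyMeasurable (Eventually.of_forall hC)

theorem int_mm (v : E6) : Integrable (mm (vl v)) :=
  integrable_finsetSum _ fun j _ => (m2_vl v j).int_sq

theorem int_z (v : E6) {z : Fin 2 → P → ℝ} (hz : ∀ j, M2 (z j)) :
    Integrable fun x => ∑ j, z j x * vl v j x :=
  integrable_finsetSum _ fun j _ => (hz j).int_mul (m2_vl v j)

theorem off {Ω : Set P} {v : E6} (hv : v ∈ Ys Ω) :
    ∀ᵐ x, x ∉ Ω → (∀ j, vl v j x = 0) ∧ ∀ j i, gj v j i x = 0 := by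
  filter_upwards [ae_all_iff.2 (Ys_le Ω hv).2] with x h hx
  exact ⟨fun j => h _ hx, fun j i => h _ hx⟩

theorem core (h1 : RadS) (h2 : EnIdS) {Ω N : Set P} {c : P} {T : ℝ} {v : E6}
    {z : Fin 2 → P → ℝ} {β : ℝ → ℝ} (hΩ : ∀ x ∈ Ω, qc c x < T) (hv : v ∈ Ys Ω)
    (hz : ∀ j, M2 (z j)) (hh : Hz N (gj v) z) (s : ContDiff ℝ ∞ β) (k : HasCompactSupport β)
    (β0 : ∀ t, 0 ≤ β t) (hs : ∀ x ∈ Ω, qc c x ∈ tsupport β → x ∈ N) {g : P → ℝ}
    (hg : Integrable g) (hb : ∀ᵐ x, (2 * T * (deriv β (qc c x) + qc c x * deriv (deriv β) (qc c x))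
      - 2 * (qc c x * deriv β (qc c x))) * mm (vl v) x ≤ g x) :
    ∫ x, β (qc c x) * (T * ∑ j, z j x * vl v j x + mm (vl v) x) ≤ ∫ x, g x := by
  have s' := (contDiff_infty_iff_deriv.1 s).2
  obtain ⟨t0, a0⟩ := h1 c _ _ β (Ys_le Ω hv).1 s k
  obtain ⟨t1, a1⟩ := h1 c _ _ _ (Ys_le Ω hv).1 s' k.deriv
  have t2 := (h1 c _ _ _ (Ys_le Ω hv).1 (contDiff_infty_iff_deriv.1 s').2 k.deriv.deriv).1
  have a2 := h2 Ω N c v z β hv hz hh s k hs
  have im := int_mm v
  have iD : Integrable fun x => ∑ j, ∑ i, gj v j i x ^ 2 :=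
    integrable_finsetSum _ fun j _ => integrable_finsetSum _ fun i _ => (m2_gj v j i).int_sq
  have iP : Integrable fun x => β (qc c x) * Ph c (vl v) (gj v) x := by
    simp only [Ph, Finset.mul_sum]
    refine integrable_finsetSum _ fun j _ => integrable_finsetSum _ fun i _ => ?_
    refine (int_mul3 (m2_vl v j) (m2_gj v j i) (t0.muls (sm_Xc c i))).congr
      (Eventually.of_forall fun x => ?_)
    ring
  have a3 : ∫ x, -2 * (β (qc c x) * Ph c (vl v) (gj v) x) ≤ ∫ x, β (qc c x) * mm (vl v) x +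
      T * (β (qc c x) * ∑ j, ∑ i, gj v j i x ^ 2) := by
    refine integral_mono_ae (iP.const_mul _) ((tint t0 im).add ((tint t0 iD).const_mul _)) ?_
    filter_upwards [off hv] with x hx
    have : -2 * Ph c (vl v) (gj v) x ≤ mm (vl v) x + T * ∑ j, ∑ i, gj v j i x ^ 2 := by
      by_cases h : x ∈ Ω
      · have q := (hΩ x h).le
        have q' := mul_le_mul_of_nonneg_right q (show 0 ≤ ∑ j, ∑ i, gj v j i x ^ 2 by positivity)
        refine le_trans ?_ (add_le_add_right q' _)
        simp only [Ph, mm, qc_eq, Fin.sum_univ_two]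
        nlinarith [sq_nonneg (vl v 0 x + Xc c 0 x * gj v 0 0 x + Xc c 1 x * gj v 0 1 x),
          sq_nonneg (vl v 1 x + Xc c 0 x * gj v 1 0 x + Xc c 1 x * gj v 1 1 x),
          sq_nonneg (Xc c 0 x * gj v 0 1 x - Xc c 1 x * gj v 0 0 x),
          sq_nonneg (Xc c 0 x * gj v 1 1 x - Xc c 1 x * gj v 1 0 x)]
      · simp [Ph, mm, (hx h).1, (hx h).2]
    nlinarith [mul_le_mul_of_nonneg_left this (β0 (qc c x))]
  have i1 := tint (t1.smul (sm_qc c)) im
  have i2 := tint (t1.add (t2.smul (sm_qc c))) im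
  have a4 := integral_mono_ae ((i2.const_mul (2 * T)).sub (i1.const_mul 2)) hg
    (hb.mono fun x hx => le_of_eq_of_le (by simp only [Pi.sub_apply]; ring) hx)
  simp only [Pi.sub_apply] at a4
  rw [integral_sub (i2.const_mul _) (i1.const_mul _), integral_const_mul, integral_const_mul] at a4
  rw [integral_add (tint t0 im) ((tint t0 iD).const_mul _), integral_const_mul,
    integral_const_mul] at a3
  simp only [add_mul] at a0
  rw [integral_add (tint t0 im) i1] at a0
  simp only [mul_add, mul_left_comm _ T]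
  rw [integral_add ((tint t0 (int_z v hz)).const_mul _) (tint t0 im), integral_const_mul]
  rw [a1] at a2
  have a5 := congrArg (T * ·) a2
  simp only [mul_zero] at a5
  linarith

theorem step (h1 : RadS) (h2 : EnIdS) {Ω : Set P} {c : P} {r R : ℝ} {v : E6}
    {z : Fin 2 → P → ℝ} (hr : 0 < r) (hΩ : ∀ x ∈ Ω, qc c x < R ^ 2) (hv : v ∈ Ys Ω)
    (hz : ∀ j, M2 (z j)) (hh : Hz (An c r R) (gj v) z)
    (hm : ∀ δ : ℝ, 0 < δ → ∃ η : ℝ, 0 < η ∧ ∀ᵐ x, x ∈ An c r (r + η) → mm (vl v) x ≤ δ)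
    {l θ : ℝ} (hl : 1 ≤ l * r ^ 2) (hθ : 0 < θ) : ∃ ε, 0 < ε ∧ ε ≤ θ ∧
      ∫ x, bt (r ^ 2) l ε (qc c x) * (R ^ 2 * ∑ j, z j x * vl v j x + mm (vl v) x) ≤ θ := by
  have a0 : 0 < r ^ 2 := by positivity
  have l0 : 0 < l := pos_of_mul_pos_left (one_pos.trans_le hl) a0.le
  obtain ⟨K, K0, hK⟩ := err_bd (T := R ^ 2) a0 hl
  have V0 : 0 ≤ volume.real {x | qc c x < 1} := measureReal_nonneg
  set V := volume.real {x | qc c x < 1} with hV
  obtain ⟨η, η0, hη⟩ := hm (θ / (3 * K * V + 1)) (by positivity)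
  obtain ⟨ε, ε0, ε1, ε2, ε3⟩ : ∃ ε, 0 < ε ∧ ε ≤ θ ∧ ε ≤ 1 ∧ ε ≤ η ^ 2 / 3 :=
    ⟨min θ (min 1 (η ^ 2 / 3)), by positivity, min_le_left _ _,
      min_le_of_right_le (min_le_left _ _), min_le_of_right_le (min_le_right _ _)⟩
  refine ⟨ε, ε0, ε1, ?_⟩
  let κ : ContDiffBump (0 : ℝ) := ⟨R ^ 2 + 1, R ^ 2 + 2, by positivity, by linarith⟩
  have q0 : ∀ x, 0 ≤ qc c x := fun x => by unfold qc; positivity
  have e : ∀ x ∈ Ω, (fun t => bt (r ^ 2) l ε t * κ t) =ᶠ[𝓝 (qc c x)] bt (r ^ 2) l ε := fun x hx =>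
    (κ.eventuallyEq_one_of_mem_ball (x := qc c x) (by
      rw [mem_ball_zero_iff, Real.norm_of_nonneg (q0 x)]
      exact (hΩ x hx).trans (lt_add_one _))).mono fun t ht => by simp [ht]
  have m : MeasurableSet {x | r ^ 2 < qc c x ∧ qc c x < r ^ 2 + 3 * ε} :=
    ((isOpen_lt continuous_const (sm_qc c).continuous).inter
      (isOpen_lt (sm_qc c).continuous continuous_const)).measurableSet
  have := core h1 h2 hΩ hv hz hh ((bt_sm (r ^ 2) l ε).mul κ.contDiff)
    κ.hasCompactSupport.mul_left (fun t => mul_nonneg (bt_bd l0.le ε0 t).1 κ.nonneg)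
    (fun x hx h => ⟨lt_of_lt_of_le (lt_add_of_pos_right _ ε0) (closure_minimal (t := Ici (r ^ 2 + ε))
      (fun t (ht : _ ≠ _) => mem_Ici.2 (not_lt.1 fun h : t < r ^ 2 + ε =>
        ht (by simp [bt_low ε0 h.le]))) isClosed_Ici h), hΩ x hx⟩)
    (g := {x | r ^ 2 < qc c x ∧ qc c x < r ^ 2 + 3 * ε}.indicator
      fun _ => K / ε * (θ / (3 * K * V + 1)))
    ((integrable_indicator_iff m).2 (integrableOn_const (ne_top_of_le_ne_top
      (fin_disc c (r ^ 2 + 3 * ε)) (measure_mono fun x h => h.2)))) (by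
      filter_upwards [off hv, hη] with x h3 h4
      by_cases hx : x ∈ Ω
      · rw [(e x hx).deriv_eq, (e x hx).deriv.deriv_eq]
        have m0 : 0 ≤ mm (vl v) x := by unfold mm; positivity
        refine (mul_le_mul_of_nonneg_right (hK ε _ ε0 ε2 (q0 x) (hΩ x hx).le) m0).trans ?_
        simp only [indicator_apply, mem_ofPred_eq]
        split_ifs with h5
        · exact mul_le_mul_of_nonneg_left (h4 ⟨h5.1, by nlinarith [h5.2]⟩) (by positivity)
        · simp
      · simp only [mm, (h3 hx).1]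
        simpa using indicator_nonneg (fun _ _ => by positivity) x)
  rw [integral_indicator_const _ m, smul_eq_mul] at this
  refine le_trans (le_of_eq (integral_congr_ae ?_)) (this.trans ?_)
  · filter_upwards [off hv] with x h3
    by_cases hx : x ∈ Ω
    · exact congrArg (· * _) (e x hx).self_of_nhds.symm
    · simp [mm, (h3 hx).1]
  · refine (mul_le_mul_of_nonneg_right (vol_layer c a0 (by positivity)) (by positivity)).trans ?_
    rw [← hV, show 3 * ε * V * (K / ε * (θ / (3 * K * V + 1))) = 3 * K * V / (3 * K * V + 1) * θ by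
      field_simp]
    exact mul_le_of_le_one_left hθ.le ((div_le_one (by positivity)).2 (by linarith))

end Diss2

theorem rowDiss2 : OfDiss2 := by
  intro h1 h2 Ω c r R v z hr _ hΩ hv hz hh hm
  have a0 : 0 < r ^ 2 := by positivity
  choose ε ε0 ε1 ε2 using fun n : ℕ => Diss2.step h1 h2 hr hΩ hv hz hh hm (l := 1 / r ^ 2 + n)
    (θ := 1 / ((n : ℝ) + 1)) (by rw [add_mul, one_div_mul_cancel a0.ne']; simp; positivity)
    (by positivity)
  have iW := ((Diss2.int_z v hz).const_mul (R ^ 2)).add (Diss2.int_mm v)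
  have l0 : ∀ n : ℕ, 0 ≤ 1 / r ^ 2 + n := fun n => by positivity
  have lim := tendsto_integral_of_dominated_convergence (μ := volume)
    (F := fun (n : ℕ) x => Diss2.bt (r ^ 2) (1 / r ^ 2 + n) (ε n) (qc c x) *
      (R ^ 2 * ∑ j, z j x * vl v j x + mm (vl v) x))
    (f := (An c r R).indicator fun x => R ^ 2 * ∑ j, z j x * vl v j x + mm (vl v) x) _
    (fun n => ((Diss2.bt_sm _ _ _).continuous.comp (sm_qc c).continuous).aestronglyMeasurable.mul
      iW.aestronglyMeasurable) iW.norm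
    (fun n => Eventually.of_forall fun x => by
      rw [norm_mul, Real.norm_of_nonneg (Diss2.bt_bd (l0 n) (ε0 n) _).1]
      exact mul_le_of_le_one_left (norm_nonneg _) (Diss2.bt_bd (l0 n) (ε0 n) _).2) (by
      filter_upwards [Diss2.off hv] with x h3
      by_cases hx : x ∈ Ω
      · by_cases hq : r ^ 2 < qc c x
        · rw [indicator_of_mem (show x ∈ An c r R from ⟨hq, hΩ x hx⟩)]
          refine Tendsto.congr' ?_ ?_ (f₁ := fun n : ℕ => (1 - Real.exp (-((1 / r ^ 2 + n) *
            (qc c x - r ^ 2 - ε n)))) * (R ^ 2 * ∑ j, z j x * vl v j x + mm (vl v) x))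
          · filter_upwards [tendsto_one_div_add_atTop_nhds_zero_nat.eventually
              (gt_mem_nhds (half_pos (sub_pos.2 hq)))] with n hn
            have := ε0 n
            rw [Diss2.bt, Diss2.S_high (by
              rw [le_sub_iff_add_le, le_div_iff₀ this]; linarith [ε1 n])]
            congr 4
            field_simp
          · have t1 : Tendsto ε atTop (𝓝 0) := squeeze_zero (fun n => (ε0 n).le) ε1
              tendsto_one_div_add_atTop_nhds_zero_nat
            have t2 := Real.tendsto_exp_atBot.comp (tendsto_neg_atTop_atBot.comp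
              ((tendsto_atTop_add_const_left _ (1 / r ^ 2) tendsto_natCast_atTop_atTop).atTop_mul_pos
                (by simpa using hq) (t1.const_sub (qc c x - r ^ 2))))
            simpa using (t2.const_sub 1).mul_const (R ^ 2 * ∑ j, z j x * vl v j x + mm (vl v) x)
        · rw [indicator_of_notMem fun h : x ∈ An c r R => hq h.1]
          simp [fun n : ℕ => Diss2.bt_low (l := 1 / r ^ 2 + n) (ε0 n)
            ((not_lt.1 hq).trans (le_add_of_nonneg_right (ε0 n).le)), -one_div]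
      · have : R ^ 2 * ∑ j, z j x * vl v j x + mm (vl v) x = 0 := by simp [mm, (h3 hx).1]
        rw [(indicator_apply_eq_zero (a := x)).2 fun _ => this]
        simp only [this, mul_zero, tendsto_const_nhds])
  have := le_of_tendsto_of_tendsto' lim tendsto_one_div_add_atTop_nhds_zero_nat ε2
  rw [integral_indicator (isOpen_An c r R).measurableSet,
    integral_add ((Diss2.int_z v hz).const_mul _).integrableOn (Diss2.int_mm v).integrableOn,
    integral_const_mul] at this
  linarith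

end Pool.Agent.MP_ed9623_an.H77
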