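import Pool.Agent.MP_ed9623_an.H77.SpecA

/-! Steklov averages and translations in `L²`. -/

open MeasureTheory Filter Topology Set

namespace Pool.Agent.MP_ed9623_an.H77

namespace Stek

variable {V : Type} [NormedAddCommGroup V] [NormedSpace ℝ V]

/-- Cauchy-Schwarz inequality on an interval. -/
theorem cs {f : ℝ → V} {a b : ℝ} (hab : a < b) (h1 : IntervalIntegrable f volume a b)
    (h2 : IntervalIntegrable (fun r => ‖f r‖ ^ 2) volume a b) :
    ‖∫ r in a..b, f r‖ ^ 2 ≤ (b - a) * ∫ r in a..b, ‖f r‖ ^ 2 := by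
  have hL : 0 < b - a := sub_pos.2 hab
  have e1 := intervalIntegral.norm_integral_le_integral_norm (f := f) (μ := volume) hab.le
  obtain ⟨m, hm⟩ : ∃ m, ∫ r in a..b, ‖f r‖ = m * (b - a) :=
    ⟨(∫ r in a..b, ‖f r‖) / (b - a), (div_mul_cancel₀ _ hL.ne').symm⟩
  have e2 : ∫ r in a..b, 2 * m * ‖f r‖ ≤ ∫ r in a..b, (‖f r‖ ^ 2 + m ^ 2) :=
    intervalIntegral.integral_mono_on hab.le (h1.norm.const_mul _) (h2.add intervalIntegrable_const)
      fun r _ => by nlinarith [sq_nonneg (‖f r‖ - m)]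
  rw [intervalIntegral.integral_const_mul, intervalIntegral.integral_add h2 intervalIntegrable_const,
    intervalIntegral.integral_const, hm, smul_eq_mul] at e2
  have e3 := pow_le_pow_left₀ (norm_nonneg _) (e1.trans_eq hm) 2
  have e4 := mul_le_mul_of_nonneg_left e2 hL.le
  nlinarith

theorem stk_sq_le {f : ℝ → V} (hf : Loc2 univ f) (h a : ℝ) :
    ‖stk h f a‖ ^ 2 ≤ h⁻¹ * ∫ r in a..a + h, ‖f r‖ ^ 2 := by
  rw [stk, norm_smul, mul_pow, Real.norm_eq_abs, sq_abs]
  rcases lt_trichotomy h 0 with h0 | rfl | h0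
  · have := cs (f := f) (a := a + h) (b := a) (by linarith) (hf.ii trivial trivial)
      (hf.ii_sq trivial trivial)
    rw [intervalIntegral.integral_symm, norm_neg, intervalIntegral.integral_symm a] at this
    refine (mul_le_mul_of_nonneg_left this (sq_nonneg _)).trans_eq ?_
    have := h0.ne
    field_simp
    ring
  · simp
  · have := cs (f := f) (a := a) (b := a + h) (by linarith) (hf.ii trivial trivial)
      (hf.ii_sq trivial trivial)
    refine (mul_le_mul_of_nonneg_left this (sq_nonneg _)).trans_eq ?_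
    have := h0.ne'
    field_simp
    ring

theorem avg_le {ψ : ℝ → ℝ} {M : ℝ} (hM : ∀ x, |ψ x| ≤ M) (h : ℝ) :
    h⁻¹ * ∫ x in (0 : ℝ)..h, ψ x ≤ M := by
  have h1 := intervalIntegral.norm_integral_le_of_norm_le_const (f := ψ) (a := 0) (b := h)
    fun x _ => hM x
  have h0 : 0 ≤ M := (abs_nonneg _).trans (hM 0)
  refine (le_abs_self _).trans ?_
  rcases eq_or_ne h 0 with rfl | hh
  · simpa using h0
  · rw [abs_mul, abs_inv, inv_mul_le_iff₀ (abs_pos.2 hh), mul_comm]
    simpa using h1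

omit [NormedSpace ℝ V] in
theorem loc {g : ℝ → V} (hg : MemLp g 2 volume) : Loc2 univ g := fun _ _ _ _ => hg.restrict _

omit [NormedSpace ℝ V] in
theorem int_le {g : ℝ → V} (hg : MemLp g 2 volume) {s t : ℝ} (hst : s ≤ t) :
    ∫ r in s..t, ‖g r‖ ^ 2 ≤ ∫ r, ‖g r‖ ^ 2 := by
  rw [intervalIntegral.integral_of_le hst]
  exact setIntegral_le_integral ((memLp_two_iff_integrable_sq_norm hg.1).1 hg)
    (Eventually.of_forall fun _ => sq_nonneg _)

theorem stk_cont {g : ℝ → V} (hg : Loc2 univ g) (h : ℝ) : Continuous (stk h g) := by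
  have hi : ∀ a b, IntervalIntegrable g volume a b := fun _ _ => hg.ii trivial trivial
  have hP := intervalIntegral.continuous_primitive hi 0
  have e : stk h g = fun t => h⁻¹ • ((∫ r in (0 : ℝ)..t + h, g r) - ∫ r in (0 : ℝ)..t, g r) := by
    funext t
    rw [stk, intervalIntegral.integral_interval_sub_left (hi _ _) (hi _ _)]
  rw [e]
  exact ((hP.comp (continuous_add_const h)).sub hP).const_smul _

theorem stk_le {g : ℝ → V} (hg : MemLp g 2 volume) (h : ℝ) {s t : ℝ} (hst : s ≤ t) :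
    ∫ r in s..t, ‖stk h g r‖ ^ 2 ≤ ∫ r, ‖g r‖ ^ 2 := by
  have hi : ∀ a b, IntervalIntegrable (fun r => ‖g r‖ ^ 2) volume a b :=
    fun _ _ => (loc hg).ii_sq trivial trivial
  obtain ⟨F, hP, hF⟩ : ∃ F : ℝ → ℝ, Continuous F ∧ ∀ a b, ∫ r in a..b, ‖g r‖ ^ 2 = F b - F a :=
    ⟨_, intervalIntegral.continuous_primitive hi 0, fun a b =>
      (intervalIntegral.integral_interval_sub_left (hi _ _) (hi _ _)).symm⟩
  have h1 := stk_sq_le (loc hg) h
  have h2 : ∀ x, |∫ r in s + x..t + x, ‖g r‖ ^ 2| ≤ ∫ r, ‖g r‖ ^ 2 := fun x => by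
    rw [abs_of_nonneg (intervalIntegral.integral_nonneg (by linarith) fun _ _ => sq_nonneg _)]
    exact int_le hg (by linarith)
  have h3 := avg_le h2 h
  simp only [hF] at h1 h3
  have c1 : ∀ c, Continuous fun x => F (c + x) := fun c => hP.comp (continuous_const_add c)
  have c2 : Continuous fun x => F (x + h) := hP.comp (continuous_add_const h)
  have c3 : Continuous fun x => h⁻¹ * (F (x + h) - F x) := (c2.sub hP).const_mul h⁻¹
  refine le_trans (intervalIntegral.integral_mono_on hst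
    (((stk_cont (loc hg) h).norm.pow 2).intervalIntegrable _ _)
    (c3.intervalIntegrable _ _) fun r _ => h1 r) (le_of_eq_of_le ?_ h3)
  rw [intervalIntegral.integral_const_mul,
    intervalIntegral.integral_sub (c2.intervalIntegrable _ _) (hP.intervalIntegrable _ _),
    intervalIntegral.integral_sub ((c1 t).intervalIntegrable _ _) ((c1 s).intervalIntegrable _ _),
    intervalIntegral.integral_comp_add_right, intervalIntegral.integral_comp_add_left,
    intervalIntegral.integral_comp_add_left, add_zero, add_zero,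
    intervalIntegral.integral_interval_sub_interval_comm' (hP.intervalIntegrable _ _)
      (hP.intervalIntegrable _ _) (hP.intervalIntegrable _ _)]

omit [NormedSpace ℝ V] in
theorem three (a b c : V) : ‖a + b - c‖ ^ 2 ≤ 3 * ‖a‖ ^ 2 + 3 * ‖b‖ ^ 2 + 3 * ‖c‖ ^ 2 := by
  have h1 : ‖a + b - c‖ ≤ ‖a‖ + ‖b‖ + ‖c‖ :=
    (norm_sub_le _ _).trans (add_le_add_left (norm_add_le a b) _)
  refine (pow_le_pow_left₀ (norm_nonneg _) h1 2).trans ?_
  nlinarith [sq_nonneg (‖a‖ - ‖b‖), sq_nonneg (‖a‖ - ‖c‖), sq_nonneg (‖b‖ - ‖c‖)]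

/-- The density argument. -/
theorem dens {g : ℝ → V} (hg : MemLp g 2 volume) {s t : ℝ} (hst : s ≤ t) {l : Filter ℝ}
    {T : ℝ → (ℝ → V) → ℝ → V}
    (hm : ∀ h φ, MemLp φ 2 volume → IntervalIntegrable (fun r => ‖T h φ r‖ ^ 2) volume s t ∧
      ∫ r in s..t, ‖T h φ r‖ ^ 2 ≤ ∫ r, ‖φ r‖ ^ 2)
    (hsub : ∀ h φ ψ, MemLp φ 2 volume → MemLp ψ 2 volume → ∀ r,
      T h (fun x => φ x - ψ x) r = T h φ r - T h ψ r)
    (hu : ∀ φ, UniformContinuous φ → ∀ ε, 0 < ε → ∀ᶠ h in l, ∀ r, ‖T h φ r - φ r‖ ≤ ε) :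
    Tendsto (fun h => ∫ r in s..t, ‖T h g r - g r‖ ^ 2) l (𝓝 0) := by
  refine tendsto_order.2 ⟨fun a ha => Eventually.of_forall fun h => ha.trans_le
    (intervalIntegral.integral_nonneg hst fun _ _ => sq_nonneg _), fun ε hε => ?_⟩
  have hL : 0 < 7 + 3 * (t - s) := by linarith
  obtain ⟨δ, hδ, e⟩ : ∃ δ : ℝ, 0 < δ ∧ δ * (7 + 3 * (t - s)) = ε :=
    ⟨ε / (7 + 3 * (t - s)), div_pos hε hL, div_mul_cancel₀ _ hL.ne'⟩
  obtain ⟨φ, h1, h2, h3, h4⟩ := MemLp.exists_hasCompactSupport_integral_rpow_sub_le (μ := volume)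
    (f := g) two_pos (by simpa using hg) hδ
  simp only [Real.rpow_two] at h2
  have h4' : MemLp φ 2 volume := by simpa using h4
  have h5 : MemLp (fun x => g x - φ x) 2 volume := hg.sub h4'
  filter_upwards [hu φ (h1.uniformContinuous_of_continuous h3) _ (Real.sqrt_pos.2 hδ)] with h hh
  obtain ⟨i1, b1⟩ := hm h _ h5
  have i2 : IntervalIntegrable (fun r => ‖g r - φ r‖ ^ 2) volume s t :=
    (loc h5).ii_sq trivial trivial
  have b2 := int_le h5 hst
  have b3 : ∫ r in s..t, ‖T h g r - g r‖ ^ 2 ≤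
      ∫ r in s..t, (3 * ‖T h (fun x => g x - φ x) r‖ ^ 2 + 3 * δ + 3 * ‖g r - φ r‖ ^ 2) := by
    rw [intervalIntegral.integral_of_le hst, intervalIntegral.integral_of_le hst]
    refine integral_mono_of_nonneg (Eventually.of_forall fun _ => sq_nonneg _)
      (((i1.const_mul 3).add intervalIntegrable_const).add (i2.const_mul 3)).1
      (Eventually.of_forall fun r => ?_)
    have a1 := three (T h (fun x => g x - φ x) r) (T h φ r - φ r) (g r - φ r)
    have a2 := pow_le_pow_left₀ (norm_nonneg _) (hh r) 2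
    rw [Real.sq_sqrt hδ.le] at a2
    have a3 : T h (fun x => g x - φ x) r + (T h φ r - φ r) - (g r - φ r) = T h g r - g r := by
      rw [hsub h g φ hg h4']
      abel
    rw [a3] at a1
    simp only
    linarith
  rw [intervalIntegral.integral_add ((i1.const_mul 3).add intervalIntegrable_const) (i2.const_mul 3),
    intervalIntegral.integral_add (i1.const_mul 3) intervalIntegrable_const,
    intervalIntegral.integral_const, intervalIntegral.integral_const_mul,
    intervalIntegral.integral_const_mul, smul_eq_mul] at b3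
  nlinarith

theorem tend_shift {g : ℝ → V} (hg : MemLp g 2 volume) {s t : ℝ} (hst : s ≤ t) :
    Tendsto (fun h => ∫ r in s..t, ‖g (r + h) - g r‖ ^ 2) (𝓝 0) (𝓝 0) := by
  refine dens hg hst (T := fun h φ r => φ (r + h)) (fun h φ hφ => ⟨?_, ?_⟩)
    (fun _ _ _ _ _ _ => rfl) fun φ hφ ε hε => ?_
  · simpa using ((loc hφ).ii_sq (s := s + h) (t := t + h) trivial trivial).comp_add_right h
  · rw [intervalIntegral.integral_comp_add_right (fun r => ‖φ r‖ ^ 2)]
    exact int_le hφ (by linarith)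
  · obtain ⟨δ, hδ, h1⟩ := Metric.uniformContinuous_iff.1 hφ ε hε
    filter_upwards [Metric.ball_mem_nhds (0 : ℝ) hδ] with h hh r
    rw [← dist_eq_norm]
    exact (h1 (by simpa using hh)).le

theorem tend_stk [CompleteSpace V] {g : ℝ → V} (hg : MemLp g 2 volume) {s t : ℝ} (hst : s ≤ t) :
    Tendsto (fun h => ∫ r in s..t, ‖stk h g r - g r‖ ^ 2) (𝓝[≠] 0) (𝓝 0) := by
  refine dens hg hst (fun h φ hφ =>
    ⟨((stk_cont (loc hφ) h).norm.pow 2).intervalIntegrable _ _, stk_le hφ h hst⟩)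
    (fun h φ ψ hφ hψ r => ?_) fun φ hφ ε hε => ?_
  · rw [stk, stk, stk, intervalIntegral.integral_sub ((loc hφ).ii trivial trivial)
      ((loc hψ).ii trivial trivial), smul_sub]
  · obtain ⟨δ, hδ, h1⟩ := Metric.uniformContinuous_iff.1 hφ ε hε
    filter_upwards [mem_nhdsWithin_of_mem_nhds (Metric.ball_mem_nhds (0 : ℝ) hδ),
      self_mem_nhdsWithin] with h hh h0 r
    have h0' : h ≠ 0 := h0
    have e : stk h φ r - φ r = h⁻¹ • ∫ x in r..r + h, (φ x - φ r) := by
      rw [intervalIntegral.integral_sub (hφ.continuous.intervalIntegrable _ _)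
        intervalIntegrable_const, intervalIntegral.integral_const, smul_sub, smul_smul,
        add_sub_cancel_left, inv_mul_cancel₀ h0', one_smul, stk]
    have h2 := intervalIntegral.norm_integral_le_of_norm_le_const (f := fun x => φ x - φ r)
      (a := r) (b := r + h) (C := ε) fun x hx => by
        rw [← dist_eq_norm]
        refine (h1 ?_).le
        have := abs_sub_left_of_mem_uIcc (uIoc_subset_uIcc hx)
        rw [add_sub_cancel_left] at this
        exact this.trans_lt (by simpa using hh)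
    rw [e, norm_smul, Real.norm_eq_abs, abs_inv, inv_mul_le_iff₀ (abs_pos.2 h0'), mul_comm]
    simpa using h2

omit [NormedSpace ℝ V] in
theorem cut_mem {I : Set ℝ} {G : ℝ → V} (hG : Loc2 I G) {a b : ℝ} (ha : a ∈ I) (hb : b ∈ I) :
    MemLp ((Icc a b).indicator G) 2 volume := by
  rw [memLp_indicator_iff_restrict measurableSet_Icc, ← Measure.restrict_congr_set Ioo_ae_eq_Icc]
  exact hG a ha b hb

omit [NormedSpace ℝ V] in
theorem cut_int (G : ℝ → V) {a b : ℝ} (hab : a ≤ b) :
    ∫ r, ‖(Icc a b).indicator G r‖ ^ 2 = ∫ r in a..b, ‖G r‖ ^ 2 := by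
  rw [intervalIntegral.integral_of_le hab, ← integral_Icc_eq_integral_Ioc,
    ← integral_indicator measurableSet_Icc]
  congr 1
  funext r
  by_cases hr : r ∈ Icc a b <;> simp [hr]

theorem cut_stk (G : ℝ → V) {a b h r : ℝ} (h1 : r ∈ Icc a b) (h2 : r + h ∈ Icc a b) :
    stk h ((Icc a b).indicator G) r = stk h G r := by
  rw [stk, stk, intervalIntegral.integral_congr fun x hx =>
    indicator_of_mem (uIcc_subset_Icc h1 h2 hx) G]

theorem nbhd {I : Set ℝ} (hI : Itv I) {s t : ℝ} (hs : s ∈ I) (ht : t ∈ I) :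
    ∃ a ∈ I, ∃ b ∈ I, a < s ∧ t < b := by
  obtain ⟨a, h1, h2⟩ := Filter.Eventually.exists_lt (p := fun x => x ∈ I) (hI.1.mem_nhds hs)
  obtain ⟨b, h3, h4⟩ := Filter.Eventually.exists_gt (p := fun x => x ∈ I) (hI.1.mem_nhds ht)
  exact ⟨a, h2, b, h4, h1, h3⟩

end Stek

open Stek in
theorem stek : OfStek := by
  intro V _ _ _ I G hI hG
  refine ⟨fun s t s' t' h hs' ht' hst h1 h2 h3 h4 => ?_, fun h x hx => ?_, fun s hs t ht hst => ?_⟩
  · rw [← cut_int G (h1.trans (hst.trans h3))]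
    refine le_of_eq_of_le (intervalIntegral.integral_congr fun r hr => ?_)
      (stk_le (cut_mem hG hs' ht') h hst)
    rw [uIcc_of_le hst] at hr
    rw [cut_stk G ⟨by linarith [hr.1], by linarith [hr.2]⟩ ⟨by linarith [hr.1], by linarith [hr.2]⟩]
  · have m1 : min x (x + h) ∈ I := by
      rcases min_choice x (x + h) with e | e <;> rw [e]
      exacts [hx.1, hx.2]
    have m2 : max x (x + h) ∈ I := by
      rcases max_choice x (x + h) with e | e <;> rw [e]
      exacts [hx.1, hx.2]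
    obtain ⟨a, ha, b, hb, h1, h2⟩ := nbhd hI m1 m2
    rw [lt_min_iff] at h1
    rw [max_lt_iff] at h2
    refine ContinuousAt.continuousWithinAt
      ((stk_cont (loc (cut_mem hG ha hb)) h).continuousAt.congr ?_)
    filter_upwards [Icc_mem_nhds h1.1 h2.1,
      (continuous_add_const h).continuousAt.eventually (Icc_mem_nhds h1.2 h2.2)] with r r1 r2
    exact cut_stk G r1 r2
  · obtain ⟨a, ha, b, hb, h1, h2⟩ := nbhd hI hs ht
    have ev : ∀ᶠ h in 𝓝 (0 : ℝ), ∀ r ∈ uIcc s t, r ∈ Icc a b ∧ r + h ∈ Icc a b := by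
      filter_upwards [Icc_mem_nhds (sub_neg.2 h1) (sub_pos.2 h2)] with h hh r hr
      rw [uIcc_of_le hst] at hr
      exact ⟨⟨by linarith [hr.1], by linarith [hr.2]⟩,
        ⟨by linarith [hr.1, hh.1], by linarith [hr.2, hh.2]⟩⟩
    constructor
    · refine (tend_stk (cut_mem hG ha hb) hst).congr' ?_
      filter_upwards [mem_nhdsWithin_of_mem_nhds ev] with h hh
      refine intervalIntegral.integral_congr fun r hr => ?_
      rw [cut_stk G (hh r hr).1 (hh r hr).2, indicator_of_mem (hh r hr).1]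
    · refine (tend_shift (cut_mem hG ha hb) hst).congr' ?_
      filter_upwards [ev] with h hh
      refine intervalIntegral.integral_congr fun r hr => ?_
      rw [indicator_of_mem (hh r hr).1, indicator_of_mem (hh r hr).2]

end Pool.Agent.MP_ed9623_an.H77
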